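import Pool.Agent.H15.DL4

set_option autoImplicit false

namespace Pool.Agent.Results.MP_7165d8_gt.Counterexample

/-- The closure of every discrete subset is Lindelof. -/
def DiscretelyLindelof (X : Type) [TopologicalSpace X] : Prop :=
  ∀ D : Set X, DiscreteTopology D → IsLindelof (closure D)

theorem result : ∃ (X : Type) (_ : TopologicalSpace X), T1Space X ∧
    DiscretelyLindelof {p : X × X // p.1 ≠ p.2} ∧ ¬ LindelofSpace X :=
  ⟨H15.DL.ZZ, inferInstance, inferInstance, fun _ hD => H15.DL.codiag_lind hD, H15.DL.not_lind⟩

end Pool.Agent.Results.MP_7165d8_gt.Counterexample
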